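import Pool.Agent.MP_6a4325_al.H62.Spec

/-!
Row BURN: the theorem of Burnside and the lemma of Furstenberg at the finite places.
-/

set_option autoImplicit false

namespace Pool.Agent.MP_6a4325_al.H19

open Pool.Agent.MP_6a4325_al.H62 Matrix

lemma burnside {k A : Type} [Field k] [IsAlgClosed k] [Ring A] [Algebra k A] (V : Type)
    [AddCommGroup V] [Module k V] [Module A V] [IsScalarTower k A V]
    [FiniteDimensional k V] [IsSimpleModule A V] (f : Module.End k V) :
    ∃ r : A, ∀ v, f v = r • v := by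
  have hb := IsSimpleModule.algebraMap_end_bijective_of_isAlgClosed (A := A) (V := V) k
  obtain ⟨s, hs⟩ := Module.Finite.fg_top (R := k) (M := V)
  let F : Module.End (Module.End A V) V :=
    { toFun := f
      map_add' := f.map_add
      map_smul' := fun e v => by
        obtain ⟨c, rfl⟩ := hb.2 e
        simp }
  obtain ⟨r, hr⟩ := jacobson_density F s
  refine ⟨r, fun v => ?_⟩
  have h : f = Algebra.lsmul k k V r := LinearMap.ext_on hs fun v hv => hr v hv
  rw [h]
  rfl

lemma spans_of_sir {G k : Type} [Group G] [Field k] [IsAlgClosed k] {n : ℕ}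
    (ρ : G →* Matrix (Fin n) (Fin n) k) (h : SIr ρ) : Spans ρ := by
  intro K hK
  rcases Nat.eq_zero_or_pos n with rfl | hn
  · exact Subsingleton.elim _ _
  have : Nonempty (Fin n) := ⟨⟨0, hn⟩⟩
  let φ := Matrix.toLinAlgEquiv' (R := k) (n := Fin n)
  let A : Subalgebra k (Module.End k (Fin n → k)) :=
    Algebra.adjoin k ((fun g => φ (ρ g)) '' (K : Set G))
  have hA : ∀ a ∈ A, φ.symm a ∈ Submodule.span k (ρ '' (K : Set G)) := by
    intro a ha
    have ha' : a ∈ Subalgebra.toSubmodule A := ha
    rw [Algebra.adjoin_eq_span] at ha'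
    refine Submodule.span_induction (p := fun a _ =>
      φ.symm a ∈ Submodule.span k (ρ '' (K : Set G))) ?_ ?_ ?_ ?_ ha'
    · intro x hx
      have hx' : ∃ g ∈ K, φ (ρ g) = x := by
        refine Submonoid.closure_induction (motive := fun x _ => ∃ g ∈ K, φ (ρ g) = x)
          ?_ ?_ ?_ hx
        · rintro _ ⟨g, hg, rfl⟩
          exact ⟨g, hg, rfl⟩
        · exact ⟨1, K.one_mem, by rw [map_one, map_one]⟩
        · rintro _ _ _ _ ⟨g, hg, rfl⟩ ⟨g', hg', rfl⟩
          exact ⟨g * g', K.mul_mem hg hg', by rw [map_mul, map_mul]⟩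
      obtain ⟨g, hg, rfl⟩ := hx'
      rw [AlgEquiv.symm_apply_apply]
      exact Submodule.subset_span ⟨g, hg, rfl⟩
    · rw [map_zero]
      exact Submodule.zero_mem _
    · intro x y _ _ hx hy
      rw [map_add]
      exact Submodule.add_mem _ hx hy
    · intro c x _ hx
      rw [map_smul]
      exact Submodule.smul_mem _ c hx
  have hs : IsSimpleModule A (Fin n → k) := by
    refine { eq_bot_or_eq_top := fun U => ?_ }
    have hU := h K hK (U.restrictScalars k) (fun g hg u hu => by
      have h1 : φ (ρ g) ∈ A := Algebra.subset_adjoin ⟨g, hg, rfl⟩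
      exact U.smul_mem (⟨φ (ρ g), h1⟩ : A) hu)
    rcases hU with hU | hU
    · exact Or.inl ((Submodule.restrictScalars_eq_bot_iff _ _ _).1 hU)
    · exact Or.inr ((Submodule.restrictScalars_eq_top_iff _ _ _).1 hU)
  refine eq_top_iff.2 fun M _ => ?_
  obtain ⟨r, hr⟩ := burnside (k := k) (A := A) (Fin n → k) (φ M)
  have h2 : φ M = r.1 := LinearMap.ext hr
  have h3 := hA _ r.2
  rwa [← h2, AlgEquiv.symm_apply_apply] at h3

lemma spans_map {G k L : Type} [Group G] [Field k] [Field L] {n : ℕ}
    (ρ : G →* Matrix (Fin n) (Fin n) k) (h : Spans ρ) (σ : k →+* L) :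
    Spans (σ.mapMatrix.toMonoidHom.comp ρ) := by
  intro K hK
  have h1 : ∀ M : Matrix (Fin n) (Fin n) k, M.map σ ∈
      Submodule.span L ((σ.mapMatrix.toMonoidHom.comp ρ) '' (K : Set G)) := by
    intro M
    have hM : M ∈ Submodule.span k (ρ '' (K : Set G)) := by
      rw [h K hK]
      trivial
    refine Submodule.span_induction (p := fun M _ => M.map σ ∈
      Submodule.span L ((σ.mapMatrix.toMonoidHom.comp ρ) '' (K : Set G))) ?_ ?_ ?_ ?_ hM
    · rintro _ ⟨g, hg, rfl⟩
      exact Submodule.subset_span ⟨g, hg, rfl⟩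
    · have h0 : (0 : Matrix (Fin n) (Fin n) k).map σ = 0 := by
        ext i j
        simp
      rw [h0]
      exact Submodule.zero_mem _
    · intro x y _ _ hx hy
      have h0 : (x + y).map σ = x.map σ + y.map σ := by
        ext i j
        simp
      rw [h0]
      exact Submodule.add_mem _ hx hy
    · intro c x _ hx
      have h0 : (c • x).map σ = σ c • x.map σ := by
        ext i j
        simp
      rw [h0]
      exact Submodule.smul_mem _ _ hx
  refine eq_top_iff.2 fun M _ => ?_
  rw [Matrix.matrix_eq_sum_single M]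
  refine Submodule.sum_mem _ fun i _ => Submodule.sum_mem _ fun j _ => ?_
  have h2 : Matrix.single i j (M i j) = M i j • (Matrix.single i j (1 : k)).map σ := by
    ext a b
    simp only [Matrix.single, Matrix.of_apply, Matrix.smul_apply, Matrix.map_apply, smul_eq_mul]
    split_ifs <;> simp
  rw [h2]
  exact Submodule.smul_mem _ _ (h1 _)

theorem burn : SBurn := fun _ _ _ ρ h _ _ σ => spans_map ρ (spans_of_sir ρ h) σ

lemma sir_of_spans {G k L : Type} [Group G] [Field k] [Field L] {n : ℕ}
    (ρ : G →* Matrix (Fin n) (Fin n) k) (σ : k →+* L)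
    (h : Spans (σ.mapMatrix.toMonoidHom.comp ρ)) : SIr ρ := by
  intro K hK U hU
  by_contra hc
  push Not at hc
  obtain ⟨u, hu, hu0⟩ := (Submodule.ne_bot_iff U).1 hc.1
  obtain ⟨l, hl0, hl⟩ := U.exists_le_ker_of_lt_top (lt_top_iff_ne_top.2 hc.2)
  obtain ⟨j, hj⟩ := Function.ne_iff.1 hu0
  let a : Fin n → k := fun i => l (Pi.single i 1)
  have hla : ∀ w, l w = ∑ i, a i * w i := by
    intro w
    conv_lhs => rw [pi_eq_sum_univ' w]
    rw [map_sum]
    refine Finset.sum_congr rfl fun i _ => ?_
    rw [map_smul, smul_eq_mul, mul_comm]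
  let T : Matrix (Fin n) (Fin n) L →ₗ[L] L :=
    { toFun := fun M => ∑ i, σ (a i) * ∑ j, M i j * σ (u j)
      map_add' := fun M N => by
        simp only [Matrix.add_apply, add_mul, mul_add, Finset.sum_add_distrib]
      map_smul' := fun c M => by
        simp only [Matrix.smul_apply, smul_eq_mul, RingHom.id_apply, Finset.mul_sum]
        refine Finset.sum_congr rfl fun i _ => Finset.sum_congr rfl fun j _ => ?_
        ring }
  have hT : Submodule.span L ((σ.mapMatrix.toMonoidHom.comp ρ) '' (K : Set G)) ≤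
      LinearMap.ker T := by
    rw [Submodule.span_le]
    rintro _ ⟨g, hg, rfl⟩
    have h1 : l (ρ g *ᵥ u) = 0 := hl (hU g hg u hu)
    rw [hla] at h1
    have h2 := congrArg σ h1
    rw [map_zero, map_sum] at h2
    change ∑ i, σ (a i) * ∑ j, σ (ρ g i j) * σ (u j) = 0
    rw [← h2]
    refine Finset.sum_congr rfl fun i _ => ?_
    simp only [Matrix.mulVec, dotProduct, map_mul, map_sum]
  rw [h K hK] at hT
  refine hl0 (LinearMap.ext fun w => ?_)
  rw [hla, LinearMap.zero_apply]
  refine Finset.sum_eq_zero fun i _ => ?_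
  have h3 : T (Matrix.single i j 1) = 0 := hT trivial
  change ∑ i', σ (a i') * ∑ j', Matrix.single i j (1 : L) i' j' * σ (u j') = 0 at h3
  rw [Finset.sum_eq_single i, Finset.sum_eq_single j] at h3
  · rw [Matrix.single_apply_same, one_mul, ← map_mul, map_eq_zero, mul_eq_zero] at h3
    rw [h3.resolve_right hj, zero_mul]
  · intro b _ hb
    rw [Matrix.single_apply_of_col_ne _ _ hb.symm, zero_mul]
  · intro hb
    exact absurd (Finset.mem_univ _) hb
  · intro b _ hb
    rw [Finset.sum_eq_zero, mul_zero]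
    intro c _
    rw [Matrix.single_apply_of_row_ne hb.symm, zero_mul]
  · intro hb
    exact absurd (Finset.mem_univ _) hb

theorem pad (hM : SMeas) : SPad := by
  intro p _ G _ hG hA n ρ hρ
  obtain ⟨S, hS, hSf⟩ := Group.fg_iff.1 hG
  let X : Set (PadicAlgCl p) :=
    (fun t : G × Fin n × Fin n => ρ t.1 t.2.1 t.2.2) '' ((S ∪ S⁻¹) ×ˢ Set.univ)
  have hX : X.Finite := ((hSf.union hSf.inv).prod Set.finite_univ).image _
  let E : IntermediateField ℚ_[p] (PadicAlgCl p) := IntermediateField.adjoin ℚ_[p] X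
  have : Finite X := hX
  have hfd : FiniteDimensional ℚ_[p] E :=
    IntermediateField.finiteDimensional_adjoin fun x _ => Algebra.IsIntegral.isIntegral x
  have hE : ∀ g i j, ρ g i j ∈ E := by
    intro g
    have hg : g ∈ Subgroup.closure S := by
      rw [hS]
      trivial
    refine Subgroup.closure_induction'' (p := fun g _ => ∀ i j, ρ g i j ∈ E) ?_ ?_ ?_ ?_ hg
    · intro x hx i j
      exact IntermediateField.subset_adjoin _ _ ⟨(x, i, j), ⟨Or.inl hx, trivial⟩, rfl⟩
    · intro x hx i j
      exact IntermediateField.subset_adjoin _ _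
        ⟨(x⁻¹, i, j), ⟨Or.inr (Set.inv_mem_inv.2 hx), trivial⟩, rfl⟩
    · intro i j
      rw [map_one, Matrix.one_apply]
      split_ifs
      · exact E.one_mem
      · exact E.zero_mem
    · intro x y _ _ hx hy i j
      rw [map_mul, Matrix.mul_apply]
      exact E.sum_mem fun c _ => E.mul_mem (hx i c) (hy c j)
  let σ : E →+* PadicAlgCl p := algebraMap E (PadicAlgCl p)
  have hσ : Function.Injective (σ.mapMatrix : Matrix (Fin n) (Fin n) E → _) :=
    fun x y hxy => Matrix.ext fun i j => σ.injective (congrFun (congrFun hxy i) j)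
  let f : G → Matrix (Fin n) (Fin n) E := fun g => Matrix.of fun i j => ⟨ρ g i j, hE g i j⟩
  have hf : ∀ g, σ.mapMatrix (f g) = ρ g := fun g => rfl
  let ρ0 : G →* Matrix (Fin n) (Fin n) E :=
    { toFun := f
      map_one' := hσ (by rw [hf, map_one, map_one])
      map_mul' := fun x y => hσ (by rw [map_mul, hf, hf, hf, map_mul]) }
  have h0 : σ.mapMatrix.toMonoidHom.comp ρ0 = ρ := MonoidHom.ext hf
  have hs : SIr ρ0 := sir_of_spans ρ0 σ (h0 ▸ hρ)
  let _ : NormedSpace ℚ_[p] E := ⟨fun a x => norm_smul_le a (x : PadicAlgCl p)⟩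
  have : ProperSpace E := FiniteDimensional.proper ℚ_[p] E
  obtain ⟨c, hc, h⟩ := hM E G hA n ρ0 hs
  refine ⟨c, hc, fun g i j => ?_⟩
  have h1 : (ρ g).det = σ (ρ0 g).det := by
    rw [RingHom.map_det]
    rfl
  rw [h1]
  exact h g i j

end Pool.Agent.MP_6a4325_al.H19
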